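import Pool.Agent.Lib.MP_06935a_al.Ins.Defs

set_option autoImplicit false

namespace Pool.Agent.Lib.MP_06935a_al.Ins

variable {p : ℕ}

/-- shift of a letter -/
def sw (a : ZMod p) (x : ZMod p × Bool) : ZMod p × Bool := (x.1 + a, x.2)

theorem shift_mk (a : ZMod p) (L : List (ZMod p × Bool)) :
    shift a (FreeGroup.mk L) = FreeGroup.mk (L.map (sw a)) := by
  show FreeGroup.map (Equiv.addRight a) (FreeGroup.mk L) = _
  rw [FreeGroup.map.mk]
  rfl

theorem isReduced_map (a : ZMod p) (L : List (ZMod p × Bool)) (h : FreeGroup.IsReduced L) :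
    FreeGroup.IsReduced (L.map (sw a)) := by
  unfold FreeGroup.IsReduced at *
  rw [List.isChain_map]
  refine h.imp ?_
  intro x y hxy h1
  exact hxy (by simpa [sw] using h1)

theorem toWord_shift (a : ZMod p) (f : F p) : (shift a f).toWord = f.toWord.map (sw a) := by
  conv_lhs => rw [← FreeGroup.mk_toWord (x := f)]
  rw [shift_mk, FreeGroup.toWord_mk]
  exact (isReduced_map a _ FreeGroup.isReduced_toWord).reduce_eq

theorem shift_fixed (a : ZMod p) (ha : a ≠ 0) (f : F p) (h : shift a f = f) : f = 1 := by
  have h1 : f.toWord.map (sw a) = f.toWord := by rw [← toWord_shift, h]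
  rw [← FreeGroup.toWord_eq_nil_iff]
  rcases hL : f.toWord with _ | ⟨x, L⟩
  · rfl
  · exfalso
    rw [hL, List.map_cons] at h1
    have h2 := (List.cons.inj h1).1
    have h3 : x.1 + a = x.1 := congrArg Prod.fst h2
    exact ha (by simpa using h3)

/-- the word of the free part of a power, when nothing cancels -/
def W (a : ZMod p) (L : List (ZMod p × Bool)) : ℕ → List (ZMod p × Bool)
  | 0 => []
  | k + 1 => L ++ (W a L k).map (sw a)

theorem W_spec (a : ZMod p) (x : ZMod p × Bool) (L : List (ZMod p × Bool))
    (hred : FreeGroup.IsReduced (x :: L))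
    (hcan : ¬ ∃ M y, x :: L = M ++ [y] ∧ y.1 = x.1 + a ∧ y.2 = !x.2) (k : ℕ) :
    FreeGroup.IsReduced (W a (x :: L) k) ∧
      ∀ y ∈ (W a (x :: L) k).head?, y = x := by
  induction k with
  | zero => exact ⟨FreeGroup.IsReduced.nil, by simp [W]⟩
  | succ k ih =>
    refine ⟨?_, by simp [W]⟩
    have r := isReduced_map a _ ih.1
    show FreeGroup.IsReduced ((x :: L) ++ (W a (x :: L) k).map (sw a))
    push Not at hcan
    obtain ⟨M, q, hMq⟩ : ∃ M q, x :: L = M ++ [q] :=
      ⟨(x :: L).dropLast, (x :: L).getLast (by simp), (List.dropLast_append_getLast _).symm⟩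
    have hq := hcan M q hMq
    unfold FreeGroup.IsReduced at *
    rw [List.isChain_append]
    refine ⟨hred, r, ?_⟩
    intro u hu v hv
    rw [hMq] at hu
    simp only [List.getLast?_append, List.getLast?_singleton, Option.some_or,
      Option.mem_def, Option.some.injEq] at hu
    rw [List.head?_map] at hv
    simp only [Option.mem_def, Option.map_eq_some_iff] at hv
    obtain ⟨v', hv', hvv⟩ := hv
    have hv2 := ih.2 v' hv'
    subst hu
    rw [hv2] at hvv
    rw [← hvv]
    intro h1
    by_contra h2
    refine hq h1 ?_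
    have h3 : q.2 ≠ x.2 := h2
    revert h3
    cases q.2 <;> cases x.2 <;> simp

theorem left_pow (c : H0 p) (L : List (ZMod p × Bool)) (hL : c.left = FreeGroup.mk L) (k : ℕ) :
    (c ^ k).left = FreeGroup.mk (W c.right.toAdd L k) := by
  induction k with
  | zero => rfl
  | succ k ih =>
    rw [pow_succ', SemidirectProduct.mul_left, ih, hL]
    show FreeGroup.mk L * shift c.right.toAdd (FreeGroup.mk _) = _
    rw [shift_mk, FreeGroup.mul_mk]
    rfl

theorem coboundary (hp : 0 < p) (n : ℕ) : ∀ c : H0 p, c.left.norm ≤ n → c ^ p = 1 →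
    ∃ g : F p, c.left = g * (shift c.right.toAdd g)⁻¹ := by
  induction n with
  | zero =>
    intro c hf _
    have : c.left = 1 := FreeGroup.norm_eq_zero.1 (Nat.le_zero.1 hf)
    exact ⟨1, by rw [this]; simp⟩
  | succ n ih =>
    intro c hf hpow
    rcases hL : c.left.toWord with _ | ⟨x, L⟩
    · have : c.left = 1 := FreeGroup.toWord_eq_nil_iff.1 hL
      exact ⟨1, by rw [this]; simp⟩
    · set a : ZMod p := c.right.toAdd with ha
      have hred : FreeGroup.IsReduced (x :: L) := by
        rw [← hL]; exact FreeGroup.isReduced_toWord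
      by_cases hcan : ∃ M y, x :: L = M ++ [y] ∧ y.1 = x.1 + a ∧ y.2 = !x.2
      · obtain ⟨M, q, hM, hq1, hq2⟩ := hcan
        rcases M with _ | ⟨x', M⟩
        · exfalso
          have : x = q := by simpa using (List.cons.inj hM).1
          rw [← this] at hq2
          cases h : x.2 <;> simp [h] at hq2
        · rw [List.cons_append] at hM
          obtain ⟨h1, h2⟩ := List.cons.inj hM
          subst h1
          have hf1 : c.left = FreeGroup.mk [x] * FreeGroup.mk M * FreeGroup.mk [q] := by
            rw [FreeGroup.mul_mk, FreeGroup.mul_mk]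
            conv_lhs => rw [← FreeGroup.mk_toWord (x := c.left), hL, h2]
            simp
          have hq : FreeGroup.mk [q] = (shift a (FreeGroup.mk [x]))⁻¹ := by
            rw [shift_mk, FreeGroup.inv_mk]
            congr 1
            simp [FreeGroup.invRev, sw]
            exact Prod.ext hq1 hq2
          set u : F p := FreeGroup.mk [x] with hu
          set f' : F p := FreeGroup.mk M with hf'
          rw [hq] at hf1
          have hn : f'.norm ≤ n := by
            have h5 : c.left.norm = (x :: L).length := by
              unfold FreeGroup.norm; rw [hL]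
            have h6 : f'.norm ≤ M.length := FreeGroup.norm_mk_le
            rw [h2] at h5
            simp at h5
            omega
          set c' : H0 p := ⟨f', c.right⟩ with hc'
          have hcc : c = SemidirectProduct.inl u * c' * (SemidirectProduct.inl u)⁻¹ := by
            have e : (SemidirectProduct.inl u : H0 p)⁻¹ = SemidirectProduct.inl u⁻¹ :=
              (map_inv _ _).symm
            rw [e]
            apply SemidirectProduct.ext
            · rw [SemidirectProduct.mul_left, SemidirectProduct.mul_left,
                SemidirectProduct.left_inl, SemidirectProduct.left_inl,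
                SemidirectProduct.mul_right, SemidirectProduct.right_inl, map_one,
                MulAut.one_apply, one_mul, hf1, map_inv]
              rfl
            · simp [hc']
          have hc'p : c' ^ p = 1 := by
            rw [hcc, conj_pow] at hpow
            exact conj_eq_one_iff.1 hpow
          obtain ⟨g, hg⟩ := ih c' hn hc'p
          refine ⟨u * g, ?_⟩
          have hg' : f' = g * (shift a g)⁻¹ := hg
          rw [hf1, hg', map_mul]
          group
      · exfalso
        have hl : c.left = FreeGroup.mk (x :: L) := by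
          rw [← hL, FreeGroup.mk_toWord]
        have h1 := left_pow c _ hl p
        rw [hpow] at h1
        have h2 : (FreeGroup.mk (W a (x :: L) p)).toWord = W a (x :: L) p := by
          rw [FreeGroup.toWord_mk, (W_spec a x L hred hcan p).1.reduce_eq]
        rw [← h1] at h2
        obtain ⟨k, rfl⟩ : ∃ k, p = k + 1 := ⟨p - 1, by omega⟩
        rw [SemidirectProduct.one_left, FreeGroup.toWord_one] at h2
        simp [W] at h2

theorem eq_inl (c : H0 p) (h : c.right = 1) : c = SemidirectProduct.inl c.left := by
  ext <;> simp [h]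

theorem base_j4 (hp : 1 < p) (h : H0 p) (h1 : pi0 p h = 1) (h2 : h * alpha0 p = alpha0 p * h) :
    h = 1 := by
  have hr : h.right = 1 := h1
  have hl := congrArg SemidirectProduct.left h2
  rw [SemidirectProduct.mul_left, SemidirectProduct.mul_left, hr] at hl
  simp only [alpha0, SemidirectProduct.left_inr, SemidirectProduct.right_inr, map_one, mul_one,
    one_mul] at hl
  have : Fact (1 < p) := ⟨hp⟩
  have h3 : h.left = 1 := shift_fixed 1 one_ne_zero _ hl.symm
  rw [eq_inl h hr, h3, map_one]

theorem inl_finOrder (f : F p) (h : IsOfFinOrder (SemidirectProduct.inl f : H0 p)) : f = 1 := by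
  obtain ⟨n, hn, hp⟩ := isOfFinOrder_iff_pow_eq_one.1 h
  rw [← map_pow] at hp
  have h4 : f ^ n = 1 := SemidirectProduct.inl_injective (by rw [hp, map_one])
  by_contra hne
  exact (IsMulTorsionFree.pow_left_injective (M := F p) (n := n) (by omega)).ne hne
    (by simp [h4])

theorem base_j5 (q : ℕ) (c : H0 p) (h : pi0 p c = 1) (ht : IsOfFinOrder c) :
    ∃ k : ℕ, c ^ (q ^ k) = 1 := by
  have hr : c.right = 1 := h
  have h1 := eq_inl c hr
  rw [h1] at ht
  have h2 := inl_finOrder _ ht
  exact ⟨0, by rw [h1, h2, map_one, one_pow]⟩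

theorem base_j1 (hp : 0 < p) (c h : H0 p) (hc : c ≠ 1) (ht : IsOfFinOrder c)
    (hch : c * h = h * c) : IsOfFinOrder h := by
  have hcr : c.right ≠ 1 := by
    intro h0
    have h1 := eq_inl c h0
    rw [h1] at ht
    have h2 := inl_finOrder _ ht
    exact hc (by rw [h1, h2, map_one])
  have hpow : ∀ x : H0 p, (x ^ p).right = 1 := by
    intro x
    have h1 : pi0 p (x ^ p) = 1 := by rw [map_pow]; exact pow_char _
    exact h1
  have hc3 : c ^ p = 1 := by
    have h1 := eq_inl (c ^ p) (hpow c)
    have h2 : IsOfFinOrder (c ^ p) := ht.pow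
    rw [h1] at h2
    rw [h1, inl_finOrder _ h2, map_one]
  obtain ⟨g, hg⟩ := coboundary hp _ c le_rfl hc3
  set a : ZMod p := c.right.toAdd with ha
  have ha0 : a ≠ 0 := by
    intro h0
    exact hcr (by rw [ha] at h0; exact h0)
  have hs : ∀ y : F p, shiftHom p c.right y = shift a y := fun y => rfl
  have hh3 := eq_inl (h ^ p) (hpow h)
  set x : F p := (h ^ p).left with hx
  have hcomm : c * h ^ p = h ^ p * c := ((show Commute c h from hch).pow_right p).eq
  rw [hh3] at hcomm
  have hl := congrArg SemidirectProduct.left hcomm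
  rw [SemidirectProduct.mul_left, SemidirectProduct.mul_left] at hl
  simp only [SemidirectProduct.left_inl, SemidirectProduct.right_inl, map_one, MulAut.one_apply]
    at hl
  rw [hs, hg] at hl
  have hfix : shift a (g⁻¹ * x * g) = g⁻¹ * x * g := by
    rw [map_mul, map_mul, map_inv]
    have h5 : (shift a g)⁻¹ * shift a x * shift a g
        = g⁻¹ * (g * (shift a g)⁻¹ * shift a x) * shift a g := by group
    rw [h5, hl]
    group
  have h6 := shift_fixed a ha0 _ hfix
  have h7 : x = 1 := by
    have : x = g * (g⁻¹ * x * g) * g⁻¹ := by group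
    rw [this, h6]; group
  refine isOfFinOrder_iff_pow_eq_one.2 ⟨p, hp, ?_⟩
  rw [hh3, h7, map_one]

end Pool.Agent.Lib.MP_06935a_al.Ins
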