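import Pool.Agent.Lib.MP_06935a_al.Ins.Defs

/-!
The base group is hyperbolic (tree metric of the free group up to an additive constant).
-/

set_option autoImplicit false

namespace Pool.Agent.Lib.MP_06935a_al.Ins

open scoped Pointwise

namespace BHyp

variable {p : ℕ}

theorem norm_shift (a : Multiplicative (ZMod p)) (x : F p) :
    (shiftHom p a x).norm = x.norm :=
  MP_06935a_al.BaseHyp.norm_congr _ x

/-- the norm of the free part -/
def N (g : H0 p) : ℕ := g.left.norm

theorem N_inv_mul (x y : H0 p) : N (x⁻¹ * y) = (x.left⁻¹ * y.left).norm := by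
  unfold N
  rw [SemidirectProduct.mul_left, SemidirectProduct.inv_left, SemidirectProduct.inv_right,
    ← map_mul, norm_shift]

theorem N_mul (x y : H0 p) : N (x * y) ≤ N x + N y := by
  unfold N
  rw [SemidirectProduct.mul_left]
  refine (FreeGroup.norm_mul_le _ _).trans ?_
  rw [norm_shift]

theorem N_inv (x : H0 p) : N x⁻¹ = N x := by
  unfold N
  rw [SemidirectProduct.inv_left, norm_shift, FreeGroup.norm_inv_eq]

/-- the generating set -/
def T (p : ℕ) : Set (H0 p) := {g | N g ≤ 1}

theorem one_mem_T : (1 : H0 p) ∈ T p := by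
  show N 1 ≤ 1
  simp [N]

theorem N_le : ∀ (k : ℕ) (g : H0 p), g ∈ T p ^ k → N g ≤ k := by
  intro k
  induction k with
  | zero =>
    intro g hg
    simp at hg
    subst hg
    simp [N]
  | succ k ih =>
    intro g hg
    rw [pow_succ] at hg
    obtain ⟨y, hy, z, hz, rfl⟩ := Set.mem_mul.mp hg
    exact (N_mul y z).trans (Nat.add_le_add (ih y hy) hz)

theorem mem_pow : ∀ (k : ℕ) (g : H0 p), N g ≤ k + 1 → g ∈ T p ^ (k + 1) := by
  intro k
  induction k with
  | zero =>
    intro g hg
    rw [zero_add, pow_one]
    exact hg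
  | succ k ih =>
    intro g hg
    by_cases h : N g ≤ k + 1
    · exact pow_mono_one one_mem_T (by omega) (ih g h)
    · have hN : g.left.toWord.length = k + 2 := by
        have : g.left.norm = k + 2 := by unfold N at h hg; omega
        exact this
      obtain ⟨x, L, hL⟩ : ∃ x L, g.left.toWord = x :: L := by
        cases hw : g.left.toWord with
        | nil => rw [hw] at hN; simp at hN
        | cons x L => exact ⟨x, L, rfl⟩
      have hleft : g.left = FreeGroup.mk [x] * FreeGroup.mk L := by
        rw [← g.left.mk_toWord, hL, FreeGroup.mul_mk]; rfl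
      have hg2 : g = (⟨FreeGroup.mk [x], 1⟩ : H0 p) * (⟨FreeGroup.mk L, g.right⟩ : H0 p) := by
        apply SemidirectProduct.ext
        · rw [SemidirectProduct.mul_left]
          simp only [map_one, MulAut.one_apply]
          exact hleft
        · rw [SemidirectProduct.mul_right]
          simp
      rw [hg2, pow_succ']
      apply Set.mul_mem_mul
      · show (FreeGroup.mk [x]).norm ≤ 1
        exact FreeGroup.norm_mk_le
      · apply ih
        show (FreeGroup.mk L).norm ≤ k + 1
        refine FreeGroup.norm_mk_le.trans ?_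
        rw [hL] at hN
        simp at hN
        omega

theorem gen (g : H0 p) : ∃ k : ℕ, g ∈ T p ^ k := ⟨N g + 1, mem_pow _ g (by omega)⟩

theorem N_le_wl (g : H0 p) : N g ≤ wl (T p) g :=
  N_le _ _ (mem_pow_wl gen g)

theorem wl_le_N (g : H0 p) : wl (T p) g ≤ N g + 1 :=
  wl_le (mem_pow _ g (by omega))

end BHyp

open BHyp in
/-- the base group is hyperbolic -/
theorem base_hyp (p : ℕ) [NeZero p] : ∃ (ℓ : H0 p → ℕ) (δ : ℕ), HypLen ℓ δ ∧ ProperLen ℓ := by
  refine ⟨wl (T p), 1, wl_hyp ?_ gen ?_, ?_⟩
  · intro x hx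
    show N x⁻¹ ≤ 1
    rw [N_inv]
    exact hx
  · intro x y z w
    have h := MP_06935a_al.BaseHyp.four_free x.left y.left z.left w.left
    rw [← N_inv_mul, ← N_inv_mul, ← N_inv_mul, ← N_inv_mul, ← N_inv_mul, ← N_inv_mul] at h
    unfold dst
    have h1 := wl_le_N (x⁻¹ * y)
    have h2 := wl_le_N (z⁻¹ * w)
    have h3 := N_le_wl (x⁻¹ * z)
    have h4 := N_le_wl (y⁻¹ * w)
    have h5 := N_le_wl (x⁻¹ * w)
    have h6 := N_le_wl (y⁻¹ * z)
    rcases h with h | h
    · left; omega
    · right; omega
  · intro r
    have hfin : {L : List (ZMod p × Bool) | L.length ≤ r}.Finite := List.finite_length_le _ r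
    have hf2 : {x : F p | x.norm ≤ r}.Finite := by
      apply Set.Finite.of_finite_image (f := FreeGroup.toWord)
      · apply hfin.subset
        rintro _ ⟨x, hx, rfl⟩
        exact hx
      · exact FreeGroup.toWord_injective.injOn
    have hf3 : {g : H0 p | N g ≤ r}.Finite := by
      have : ({x : F p | x.norm ≤ r} ×ˢ (Set.univ : Set (Multiplicative (ZMod p)))).Finite :=
        hf2.prod Set.finite_univ
      apply Set.Finite.of_finite_image (f := fun g : H0 p => (g.left, g.right))
      · apply this.subset
        rintro _ ⟨x, hx, rfl⟩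
        exact ⟨hx, Set.mem_univ _⟩
      · intro a _ b _ hab
        simp only [Prod.mk.injEq] at hab
        exact SemidirectProduct.ext hab.1 hab.2
    apply hf3.subset
    intro g hg
    exact (N_le_wl g).trans hg

end Pool.Agent.Lib.MP_06935a_al.Ins
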