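import Pool.Agent.Lib.MP_06935a_al.BaseHyp

/-!
The free group on `ZMod p` with the cyclic shift of its generators, for an arbitrary prime `p`,
and the invariants of the tower of quotients in which all torsion of the kernel is `q`-torsion.
-/

set_option autoImplicit false

namespace Pool.Agent.Lib.MP_06935a_al.Ins

open scoped Pointwise

/-- the invariants carried through the tower of quotients -/
structure Good (p q : ℕ) (Γ : Type) [Group Γ] (π : Γ →* Multiplicative (ZMod p)) (α : Γ) :
    Prop where
  hyp : ∃ (ℓ : Γ → ℕ) (δ : ℕ), HypLen ℓ δ ∧ ProperLen ℓ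
  j1 : ∀ c h : Γ, c ≠ 1 → IsOfFinOrder c → c * h = h * c → IsOfFinOrder h
  j5 : ∀ c : Γ, π c = 1 → IsOfFinOrder c → ∃ k : ℕ, c ^ (q ^ k) = 1
  j4 : ∀ h : Γ, π h = 1 → h * α = α * h → h = 1
  a1 : π α ≠ 1
  a3 : α ^ p = 1

/-- the free group on `ZMod p` -/
abbrev F (p : ℕ) : Type := FreeGroup (ZMod p)

/-- the shift of the generators by `a` -/
def shift {p : ℕ} (a : ZMod p) : MulAut (F p) := FreeGroup.freeGroupCongr (Equiv.addRight a)

theorem shift_of {p : ℕ} (a x : ZMod p) : shift a (FreeGroup.of x) = FreeGroup.of (x + a) := by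
  simp [shift]

/-- the action of the cyclic group by shifts -/
def shiftHom (p : ℕ) : Multiplicative (ZMod p) →* MulAut (F p) where
  toFun a := shift a.toAdd
  map_one' := by
    ext1 x
    show (shift 0).toMonoidHom x = (MonoidHom.id (F p)) x
    congr 1
    ext y
    simp [shift]
  map_mul' a b := by
    ext1 x
    show (shift (a * b).toAdd).toMonoidHom x = ((shift a.toAdd).toMonoidHom.comp
      (shift b.toAdd).toMonoidHom) x
    congr 1
    ext y
    simp [shift, add_comm, add_left_comm]

theorem shiftHom_of {p : ℕ} (a : Multiplicative (ZMod p)) (x : ZMod p) :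
    shiftHom p a (FreeGroup.of x) = FreeGroup.of (x + a.toAdd) := shift_of _ _

/-- the base group -/
abbrev H0 (p : ℕ) : Type := F p ⋊[shiftHom p] Multiplicative (ZMod p)

/-- the projection to the cyclic group of order `p` -/
def pi0 (p : ℕ) : H0 p →* Multiplicative (ZMod p) := SemidirectProduct.rightHom

/-- the distinguished element of order `p` -/
def alpha0 (p : ℕ) : H0 p := SemidirectProduct.inr (Multiplicative.ofAdd 1)

/-- total exponent modulo `q` -/
def phi0 (p q : ℕ) : H0 p →* Multiplicative (ZMod q) :=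
  SemidirectProduct.lift (FreeGroup.lift fun _ => Multiplicative.ofAdd 1) 1 (by
    intro g
    ext x
    simp [shiftHom_of])

theorem pow_char {p : ℕ} (a : Multiplicative (ZMod p)) : a ^ p = 1 := by
  have h : (p : ℕ) • a.toAdd = 0 := by
    rw [nsmul_eq_mul, ZMod.natCast_self, zero_mul]
  exact h

end Pool.Agent.Lib.MP_06935a_al.Ins
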