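import Pool.Agent.Lib.MP_06935a_al.Ins.Step
import Pool.Agent.Lib.MP_06935a_al.Ins.BaseHyp
import Pool.Agent.Lib.MP_06935a_al.Ins.BaseAlg
import Pool.Agent.Lib.MP_06935a_al.Final

/-!
The limit of the tower for two odd primes `p` and `q`, and the quotient of the free group.
-/

set_option autoImplicit false

namespace Pool.Agent.Lib.MP_06935a_al.Ins

theorem Good.map {p q : ℕ} {Γ Γ' : Type} [Group Γ] [Group Γ'] (e : Γ ≃* Γ')
    {π : Γ →* Multiplicative (ZMod p)} {α : Γ} (G : Good p q Γ π α)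
    {π' : Γ' →* Multiplicative (ZMod p)} {α' : Γ'} (hπ : ∀ x, π' (e x) = π x)
    (hα : e α = α') : Good p q Γ' π' α' := by
  have hfin : ∀ x : Γ', IsOfFinOrder x → IsOfFinOrder (e.symm x) := by
    intro x hx
    rw [isOfFinOrder_iff_pow_eq_one] at hx ⊢
    obtain ⟨m, hm, h⟩ := hx
    exact ⟨m, hm, by rw [← map_pow, h, map_one]⟩
  have hfin' : ∀ x : Γ', IsOfFinOrder (e.symm x) → IsOfFinOrder x := by
    intro x hx
    rw [isOfFinOrder_iff_pow_eq_one] at hx ⊢
    obtain ⟨m, hm, h⟩ := hx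
    refine ⟨m, hm, ?_⟩
    apply e.symm.injective
    rw [map_pow, h, map_one]
  have hπ' : ∀ x, π (e.symm x) = π' x := fun x => by rw [← hπ]; simp
  have hα' : e.symm α' = α := by rw [← hα]; simp
  constructor
  · obtain ⟨ℓ, δ, H, hp⟩ := G.hyp
    refine ⟨_, δ, H.map e, ?_⟩
    intro r
    have := (hp r).image e
    refine this.subset ?_
    intro x hx
    exact ⟨e.symm x, hx, by simp⟩
  · intro c h hc ht hch
    apply hfin'
    refine G.j1 (e.symm c) (e.symm h) ?_ (hfin _ ht) ?_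
    · intro h1
      apply hc
      apply e.symm.injective
      rw [h1, map_one]
    · rw [← map_mul, hch, map_mul]
  · intro c h1 hc
    obtain ⟨k, hk⟩ := G.j5 (e.symm c) (by rw [hπ', h1]) (hfin _ hc)
    refine ⟨k, ?_⟩
    apply e.symm.injective
    rw [map_pow, hk, map_one]
  · intro h h1 h2
    apply e.symm.injective
    rw [map_one]
    refine G.j4 _ (by rw [hπ', h1]) ?_
    rw [← hα', ← map_mul, h2, map_mul]
  · rw [← hα, hπ]
    exact G.a1
  · rw [← hα, ← map_pow, G.a3, map_one]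

/-- the properties of the kernels of the tower -/
def Stage (p q : ℕ) (N : Subgroup (H0 p)) : Prop :=
  ∃ _ : N.Normal, N ≤ (phi0 p q).ker ∧ ∃ π' : H0 p ⧸ N →* Multiplicative (ZMod p),
    (∀ x : H0 p, π' (QuotientGroup.mk x) = pi0 p x) ∧
      Good p q (H0 p ⧸ N) π' (QuotientGroup.mk (alpha0 p))

theorem base_good {p q : ℕ} (hp : 1 < p) : Good p q (H0 p) (pi0 p) (alpha0 p) where
  hyp := by
    have : NeZero p := ⟨by omega⟩
    exact base_hyp p
  j1 := base_j1 (by omega)
  j5 := base_j5 q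
  j4 := base_j4 hp
  a1 := by
    have : Fact (1 < p) := ⟨hp⟩
    unfold pi0 alpha0
    rw [SemidirectProduct.rightHom_inr]
    intro h
    have h1 : (1 : ZMod p) = 0 := h
    exact one_ne_zero h1
  a3 := by
    unfold alpha0
    rw [← map_pow, pow_char, map_one]

theorem stage_bot {p q : ℕ} (hp : 1 < p) : Stage p q ⊥ := by
  refine ⟨inferInstance, bot_le, (pi0 p).comp QuotientGroup.quotientBot.toMonoidHom, ?_, ?_⟩
  · intro x
    rfl
  · exact (base_good hp).map QuotientGroup.quotientBot.symm (fun x => rfl) rfl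

theorem stage_step {p q : ℕ} (hp : p.Prime) (hq : q.Prime) (hp2 : p ≠ 2) (hq2 : q ≠ 2)
    (N : Subgroup (H0 p)) (hN : Stage p q N) (w : H0 p) :
    ∃ N' : Subgroup (H0 p), N ≤ N' ∧ Stage p q N' ∧ ∃ m : ℕ, 0 < m ∧ w ^ m ∈ N' := by
  obtain ⟨hNn, hN5, π', hπ', G⟩ := hN
  by_cases hw : IsOfFinOrder (QuotientGroup.mk w : H0 p ⧸ N)
  · rw [isOfFinOrder_iff_pow_eq_one] at hw
    obtain ⟨m, hm, h⟩ := hw
    refine ⟨N, le_rfl, ⟨hNn, hN5, π', hπ', G⟩, m, hm, ?_⟩
    rw [← QuotientGroup.mk_pow] at h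
    exact (QuotientGroup.eq_one_iff _).mp h
  · obtain ⟨u, n, hn, h5, hwu, hπu, π'', hπ'', G'⟩ :=
      step hp hq hp2 hq2 π' (QuotientGroup.mk (alpha0 p)) G _ hw
    let f : H0 p →* (H0 p ⧸ N) ⧸ NC u n :=
      (QuotientGroup.mk' (NC u n)).comp (QuotientGroup.mk' N)
    have hf : Function.Surjective f :=
      (QuotientGroup.mk'_surjective _).comp (QuotientGroup.mk'_surjective _)
    let e : H0 p ⧸ f.ker ≃* (H0 p ⧸ N) ⧸ NC u n :=
      QuotientGroup.quotientKerEquivOfSurjective f hf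
    have he : ∀ x : H0 p, e (QuotientGroup.mk x) = f x := fun x => rfl
    refine ⟨f.ker, ?_, ⟨inferInstance, ?_, π''.comp e.toMonoidHom, ?_, ?_⟩, n, hn, ?_⟩
    · intro x hx
      rw [MonoidHom.mem_ker]
      show (QuotientGroup.mk (QuotientGroup.mk x : H0 p ⧸ N) : (H0 p ⧸ N) ⧸ NC u n) = 1
      rw [(QuotientGroup.eq_one_iff x).mpr hx]
      rfl
    · -- total exponent
      let φ' : H0 p ⧸ N →* Multiplicative (ZMod q) := QuotientGroup.lift N (phi0 p q) hN5
      have hφ' : ∀ x : H0 p, φ' (QuotientGroup.mk x) = phi0 p q x := fun x => rfl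
      have hle : NC u n ≤ φ'.ker := by
        apply Subgroup.normalClosure_le_normal
        intro y hy
        rw [Set.mem_singleton_iff] at hy
        subst hy
        show _ ∈ φ'.ker
        rw [MonoidHom.mem_ker, map_pow]
        obtain ⟨t, rfl⟩ := h5
        rw [pow_mul, pow_char, one_pow]
      intro x hx
      rw [MonoidHom.mem_ker] at hx
      have hx' : (QuotientGroup.mk x : H0 p ⧸ N) ∈ NC u n := (QuotientGroup.eq_one_iff _).mp hx
      have := hle hx'
      rw [MonoidHom.mem_ker, hφ'] at this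
      exact this
    · intro x
      show π'' (e (QuotientGroup.mk x)) = pi0 p x
      rw [he, ← hπ' x]
      exact hπ'' _
    · refine G'.map e.symm ?_ ?_
      · intro x
        show π'' (e (e.symm x)) = π'' x
        simp
      · rw [MulEquiv.symm_apply_eq]
        rfl
    · rw [MonoidHom.mem_ker]
      show (QuotientGroup.mk (QuotientGroup.mk (w ^ n) : H0 p ⧸ N) : (H0 p ⧸ N) ⧸ NC u n) = 1
      rw [QuotientGroup.eq_one_iff]
      obtain ⟨i, hi⟩ := hwu
      have hi' : u ^ i = (QuotientGroup.mk w : H0 p ⧸ N) := hi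
      rw [QuotientGroup.mk_pow, ← hi', ← zpow_natCast, ← zpow_mul, mul_comm, zpow_mul,
        zpow_natCast]
      exact Subgroup.zpow_mem _ (Subgroup.subset_normalClosure (Set.mem_singleton _)) _

theorem countable_H0 {p : ℕ} (hp : p ≠ 0) : Countable (H0 p) := by
  have : NeZero p := ⟨hp⟩
  have : Countable (F p) := by
    unfold F
    infer_instance
  exact Countable.of_equiv _ (SemidirectProduct.equivProd).symm

/-- the limit of the tower -/
theorem exists_limit {p q : ℕ} (hp : p.Prime) (hq : q.Prime) (hp2 : p ≠ 2) (hq2 : q ≠ 2) :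
    ∃ N : Subgroup (H0 p), N.Normal ∧ (∀ w : H0 p, ∃ m : ℕ, 0 < m ∧ w ^ m ∈ N) ∧
    N ≤ (phi0 p q).ker ∧ (∀ c : H0 p, pi0 p c = 1 → ∃ k : ℕ, c ^ (q ^ k) ∈ N) ∧
    (∀ h : H0 p, pi0 p h = 1 → (h * alpha0 p)⁻¹ * (alpha0 p * h) ∈ N → h ∈ N) := by
  have : Countable (H0 p) := countable_H0 hp.ne_zero
  obtain ⟨enum, henum⟩ := exists_surjective_nat (H0 p)
  choose! nxt h1 h2 h3 using stage_step (p := p) (q := q) hp hq hp2 hq2
  obtain ⟨N, hN0, hNs⟩ : ∃ N : ℕ → Subgroup (H0 p), N 0 = ⊥ ∧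
      ∀ k, N (k + 1) = nxt (N k) (enum k) :=
    ⟨fun k => Nat.rec ⊥ (fun i M => nxt M (enum i)) k, rfl, fun _ => rfl⟩
  have hst : ∀ k, Stage p q (N k) := by
    intro k
    induction k with
    | zero => rw [hN0]; exact stage_bot hp.one_lt
    | succ k ih => rw [hNs]; exact h2 _ ih _
  have hmono : Monotone N := by
    apply monotone_nat_of_le_succ
    intro k
    rw [hNs]
    exact h1 _ (hst k) _
  have hmem : ∀ x : H0 p, x ∈ (⨆ k, N k) ↔ ∃ k, x ∈ N k := by
    intro x
    exact Subgroup.mem_iSup_of_directed hmono.directed_le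
  have hper : ∀ w : H0 p, ∃ k m : ℕ, 0 < m ∧ w ^ m ∈ N k := by
    intro w
    obtain ⟨k, rfl⟩ := henum w
    obtain ⟨m, hm, hw⟩ := h3 (N k) (hst k) (enum k)
    exact ⟨k + 1, m, hm, by rw [hNs]; exact hw⟩
  refine ⟨⨆ k, N k, ?_, ?_, ?_, ?_, ?_⟩
  · constructor
    intro x hx g
    rw [hmem] at hx ⊢
    obtain ⟨k, hk⟩ := hx
    obtain ⟨hn, -⟩ := hst k
    exact ⟨k, hn.conj_mem x hk g⟩
  · intro w
    obtain ⟨k, m, hm, hw⟩ := hper w
    exact ⟨m, hm, (hmem _).mpr ⟨k, hw⟩⟩
  · apply iSup_le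
    intro k
    obtain ⟨hn, h5, -⟩ := hst k
    exact h5
  · intro c hc
    obtain ⟨k, m, hm, hw⟩ := hper c
    obtain ⟨hn, h5, π', hπ', G⟩ := hst k
    have ht : IsOfFinOrder (QuotientGroup.mk c : H0 p ⧸ N k) := by
      rw [isOfFinOrder_iff_pow_eq_one]
      refine ⟨m, hm, ?_⟩
      rw [← QuotientGroup.mk_pow]
      exact (QuotientGroup.eq_one_iff _).mpr hw
    obtain ⟨j, hj⟩ := G.j5 _ (by rw [hπ', hc]) ht
    rw [← QuotientGroup.mk_pow] at hj
    exact ⟨j, (hmem _).mpr ⟨k, (QuotientGroup.eq_one_iff _).mp hj⟩⟩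
  · intro c hc h
    rw [hmem] at h ⊢
    obtain ⟨k, hk⟩ := h
    obtain ⟨hn, h5, π', hπ', G⟩ := hst k
    have h1 : (QuotientGroup.mk c : H0 p ⧸ N k) * QuotientGroup.mk (alpha0 p) =
        QuotientGroup.mk (alpha0 p) * QuotientGroup.mk c := by
      rw [← QuotientGroup.mk_mul, ← QuotientGroup.mk_mul]
      exact QuotientGroup.eq.mpr hk
    exact ⟨k, (QuotientGroup.eq_one_iff c).mp (G.j4 _ (by rw [hπ', hc]) h1)⟩

/-- For all odd primes `p` and `q` there is a `q`-group generated by `p` elements with an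
automorphism of order `p` which permutes the generators cyclically, fixes only the identity and
does not split. -/
theorem exists_group {p q : ℕ} (hp : p.Prime) (hq : q.Prime) (hp2 : p ≠ 2) (hq2 : q ≠ 2)
    (hpq : p ≠ q) :
    ∃ (G : Type) (_ : Group G) (x : ZMod p → G) (α : MulAut G),
      Subgroup.closure (Set.range x) = ⊤ ∧ (∀ g : G, ∃ k : ℕ, g ^ (q ^ k) = 1) ∧
      orderOf α = p ∧ (∀ i : ZMod p, α (x i) = x (i + 1)) ∧ (∀ g : G, α g = g → g = 1) ∧
      ((List.range p).map (fun i : ℕ => x (i : ZMod p))).prod ≠ 1 := by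
  obtain ⟨N, hNn, hfin, h5, h3, hfix⟩ := exists_limit (p := p) (q := q) hp hq hp2 hq2
  let K : Subgroup (F p) := N.comap (SemidirectProduct.inl : F p →* H0 p)
  have hK : ∀ x : F p, x ∈ K ↔ (SemidirectProduct.inl x : H0 p) ∈ N := fun x => Iff.rfl
  have hpi : ∀ x : F p, pi0 p (SemidirectProduct.inl x) = 1 := fun x => rfl
  have hsh : ∀ x : F p, (SemidirectProduct.inl (shift 1 x) : H0 p) =
      alpha0 p * SemidirectProduct.inl x * (alpha0 p)⁻¹ := by
    intro x
    exact SemidirectProduct.inl_aut (φ := shiftHom p) (Multiplicative.ofAdd (1 : ZMod p)) x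
  have hshK : ∀ x : F p, shift 1 x ∈ K ↔ x ∈ K := by
    intro x
    rw [hK, hK, hsh]
    constructor
    · intro h
      have := hNn.conj_mem _ h (alpha0 p)⁻¹
      simpa [mul_assoc] using this
    · intro h
      exact hNn.conj_mem _ h (alpha0 p)
  have hmap : K.map (shift 1 : F p ≃* F p).toMonoidHom = K := by
    ext y
    constructor
    · rintro ⟨x, hx, rfl⟩
      exact (hshK x).mpr hx
    · intro hy
      refine ⟨(shift 1 : F p ≃* F p).symm y, ?_, by simp⟩
      show (shift 1 : F p ≃* F p).symm y ∈ K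
      rw [← hshK]
      simpa using hy
  let α : MulAut (F p ⧸ K) := QuotientGroup.congr K K (shift 1) hmap
  have hα : ∀ x : F p, α (QuotientGroup.mk x) = QuotientGroup.mk (shift 1 x) := fun x => rfl
  have c1 : ∀ g : F p ⧸ K, ∃ k : ℕ, g ^ (q ^ k) = 1 := by
    intro g
    obtain ⟨x, rfl⟩ := QuotientGroup.mk_surjective g
    obtain ⟨k, h⟩ := h3 (SemidirectProduct.inl x) (hpi x)
    refine ⟨k, ?_⟩
    rw [← QuotientGroup.mk_pow, QuotientGroup.eq_one_iff, hK, map_pow]
    exact h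
  have c3 : ∀ g : F p ⧸ K, α g = g → g = 1 := by
    intro g hg
    obtain ⟨x, rfl⟩ := QuotientGroup.mk_surjective g
    rw [hα] at hg
    rw [QuotientGroup.eq_one_iff, hK]
    apply hfix _ (hpi x)
    have h1 := QuotientGroup.eq.mp hg.symm
    rw [hK, map_mul, hsh, map_inv] at h1
    have h2 := hNn.conj_mem _ h1 (alpha0 p)⁻¹
    have h4 : (alpha0 p)⁻¹ * ((SemidirectProduct.inl x : H0 p)⁻¹ *
        (alpha0 p * SemidirectProduct.inl x * (alpha0 p)⁻¹)) * ((alpha0 p)⁻¹)⁻¹ =
        (SemidirectProduct.inl x * alpha0 p)⁻¹ * (alpha0 p * SemidirectProduct.inl x) := by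
      group
    rw [h4] at h2
    exact h2
  have hnotK : ((List.range p).map
      (fun i : ℕ => (FreeGroup.of (i : ZMod p) : F p))).prod ∉ K := by
    intro h
    have h6 := h5 h
    rw [MonoidHom.mem_ker] at h6
    unfold phi0 at h6
    rw [SemidirectProduct.lift_inl, map_list_prod, List.map_map] at h6
    have h7 : (List.range p).map ((FreeGroup.lift fun _ : ZMod p =>
        (Multiplicative.ofAdd (1 : ZMod q))) ∘ fun i : ℕ => FreeGroup.of (i : ZMod p)) =
        (List.range p).map (fun _ => Multiplicative.ofAdd (1 : ZMod q)) := by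
      apply List.map_congr_left
      intro i _
      simp
    rw [h7, List.map_const', List.prod_replicate, List.length_range] at h6
    have h8 : (p : ZMod q) = 0 := by
      have h9 : p • (1 : ZMod q) = 0 := h6
      rwa [nsmul_one] at h9
    rw [ZMod.natCast_eq_zero_iff] at h8
    rcases (Nat.dvd_prime hp).mp h8 with h | h
    · exact hq.one_lt.ne' h
    · exact hpq h.symm
  have hαk : ∀ (k : ℕ) (y : ZMod p), (α ^ k) (QuotientGroup.mk (FreeGroup.of y)) =
      QuotientGroup.mk (FreeGroup.of (y + (k : ZMod p))) := by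
    intro k
    induction k with
    | zero =>
      intro y
      simp
    | succ k ih =>
      intro y
      rw [pow_succ', MulAut.mul_apply, ih, hα, shift_of]
      push_cast
      rw [add_assoc]
  have hgen : Subgroup.closure (Set.range (fun i : ZMod p =>
      (QuotientGroup.mk (FreeGroup.of i) : F p ⧸ K))) = ⊤ := by
    have h1 : (Subgroup.closure (Set.range (FreeGroup.of : ZMod p → F p))).map
        (QuotientGroup.mk' K) = ⊤ := by
      rw [FreeGroup.closure_range_of, ← MonoidHom.range_eq_map]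
      exact MonoidHom.range_eq_top.mpr (QuotientGroup.mk'_surjective K)
    rw [MonoidHom.map_closure, ← Set.range_comp] at h1
    exact h1
  have hαp : α ^ p = 1 := by
    have h1 : (α ^ p : MulAut (F p ⧸ K)).toMonoidHom = (MonoidHom.id (F p ⧸ K)) := by
      apply MonoidHom.eq_of_eqOn_dense hgen
      rintro _ ⟨i, rfl⟩
      show (α ^ p) (QuotientGroup.mk (FreeGroup.of i)) = QuotientGroup.mk (FreeGroup.of i)
      rw [hαk, ZMod.natCast_self, add_zero]
    apply MulEquiv.ext
    intro g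
    exact congrArg (fun f : (F p ⧸ K) →* (F p ⧸ K) => f g) h1
  have hne : QuotientGroup.mk ((List.range p).map
      (fun i : ℕ => (FreeGroup.of (i : ZMod p) : F p))).prod ≠ (1 : F p ⧸ K) := by
    intro h
    exact hnotK ((QuotientGroup.eq_one_iff _).mp h)
  have hα1 : α ≠ 1 := by
    intro h
    apply hne
    apply c3
    rw [h]
    rfl
  have c2 : orderOf α = p := by
    have h := orderOf_dvd_of_pow_eq_one hαp
    rcases (Nat.dvd_prime hp).mp h with h | h
    · exact absurd (orderOf_eq_one_iff.mp h) hα1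
    · exact h
  refine ⟨F p ⧸ K, inferInstance, fun i => QuotientGroup.mk (FreeGroup.of i), α, hgen, c1, c2,
    ?_, c3, ?_⟩
  · intro i
    show α (QuotientGroup.mk (FreeGroup.of i)) = QuotientGroup.mk (FreeGroup.of (i + 1))
    rw [hα, shift_of]
  · intro h
    apply hne
    rw [← h, ← QuotientGroup.mk'_apply, map_list_prod, List.map_map]
    rfl

end Pool.Agent.Lib.MP_06935a_al.Ins
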