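import Pool.Agent.Lib.MP_06935a_al.Step
import Pool.Agent.Lib.MP_06935a_al.Ins.Defs

/-!
One step of the tower, for a pair of distinct odd primes `p`, `q`: an element of infinite order is
given finite order, and all torsion of the kernel of the projection stays `q`-torsion.
-/

set_option autoImplicit false

namespace Pool.Agent.Lib.MP_06935a_al.Ins

variable {Γ : Type} [Group Γ] {ℓ : Γ → ℕ} {δ : ℕ}

/-- arithmetic: some power of `u ^ j` is congruent to `u ^ i` with `i` between `n / 5` and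
`n / 3` -/
theorem exists_prime_quot (n : ℕ) (hn0 : 0 < n) (hn : ∀ r : ℕ, r.Prime → r ∣ n → 3 ≤ r)
    (j : ℤ) (hj : ¬ (n : ℤ) ∣ j) :
    ∃ a b j' : ℤ, j' = a * j + b * n ∧ (n : ℤ) ≤ 5 * j' ∧ 3 * j' ≤ n := by
  set d : ℕ := Int.gcd j n with hd
  have hdn : d ∣ n := by
    have := Int.gcd_dvd_right j (n : ℤ)
    exact_mod_cast this
  obtain ⟨e, he⟩ := hdn
  have hd0 : 0 < d := by
    rcases Nat.eq_zero_or_pos d with h | h
    · rw [h] at he; omega
    · exact h
  have he1 : e ≠ 1 := by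
    intro h1
    apply hj
    rw [h1, mul_one] at he
    have h2 := Int.gcd_dvd_left j (n : ℤ)
    rw [← hd, ← he] at h2
    exact h2
  obtain ⟨r, hr, hre⟩ := Nat.exists_prime_and_dvd he1
  obtain ⟨t, ht⟩ := hre
  have hrn : r ∣ n := ⟨d * t, by rw [he, ht]; ring⟩
  have hr3 := hn r hr hrn
  have hbez := Int.gcd_eq_gcd_ab j n
  rw [← hd] at hbez
  have hm1 : r ≤ 5 * (r / 3) := by omega
  have hm2 : 3 * (r / 3) ≤ r := by omega
  set m : ℕ := r / 3 with hm
  have hnn : (n : ℤ) = r * (t * d) := by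
    rw [he, ht]; push_cast; ring
  have h0 : (0 : ℤ) ≤ t * d := by positivity
  have hm1' : (r : ℤ) ≤ 5 * m := by exact_mod_cast hm1
  have hm2' : (3 : ℤ) * m ≤ r := by exact_mod_cast hm2
  refine ⟨m * t * Int.gcdA j n, m * t * Int.gcdB j n, m * t * d, ?_, ?_, ?_⟩
  · rw [hbez]; ring
  · rw [hnn]
    nlinarith [mul_le_mul_of_nonneg_right hm1' h0]
  · rw [hnn]
    nlinarith [mul_le_mul_of_nonneg_right hm2' h0]

/-- the exponent -/
theorem exists_exponent {p q : ℕ} (hp : p.Prime) (hq : q.Prime) (hp2 : p ≠ 2) (hq2 : q ≠ 2)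
    (π : Γ →* Multiplicative (ZMod p)) (u : Γ) (B : ℕ) :
    ∃ n : ℕ, B ≤ n ∧ 0 < n ∧ q ∣ n ∧ (∀ r : ℕ, r.Prime → r ∣ n → 3 ≤ r) ∧ π (u ^ n) = 1 ∧
      ∃ k : ℕ, ∀ j : ℤ, π (u ^ j) = 1 → (n : ℤ) ∣ (q : ℤ) ^ k * j := by
  have hp3 : 3 ≤ p := by
    have := hp.two_le
    omega
  have hq3 : 3 ≤ q := by
    have := hq.two_le
    omega
  have hBlt : B < q ^ (B + 1) := lt_trans (Nat.lt_succ_self B) (Nat.lt_pow_self (by omega))
  have hq0 : 0 < q ^ (B + 1) := by positivity
  by_cases hπu : π u = 1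
  · refine ⟨q ^ (B + 1), hBlt.le, hq0, ⟨q ^ B, by ring⟩, ?_, by rw [map_pow, hπu, one_pow],
      B + 1, fun j _ => ⟨j, by push_cast; ring⟩⟩
    intro r hr hrd
    have := (Nat.prime_dvd_prime_iff_eq hr hq).mp (hr.dvd_of_dvd_pow hrd)
    omega
  · refine ⟨p * q ^ (B + 1), ?_, by positivity, ⟨p * q ^ B, by ring⟩, ?_,
      by rw [map_pow, pow_mul, pow_char, one_pow], B + 1, ?_⟩
    · calc B ≤ q ^ (B + 1) := hBlt.le
        _ = 1 * q ^ (B + 1) := (one_mul _).symm
        _ ≤ p * q ^ (B + 1) := Nat.mul_le_mul_right _ hp.one_lt.le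
    · intro r hr hrd
      rcases hr.dvd_mul.mp hrd with h | h
      · have := (Nat.prime_dvd_prime_iff_eq hr hp).mp h
        omega
      · have := (Nat.prime_dvd_prime_iff_eq hr hq).mp (hr.dvd_of_dvd_pow h)
        omega
    · intro j hj1
      have hpj : (p : ℤ) ∣ j := by
        rw [map_zpow] at hj1
        have ho : orderOf (π u) = p := by
          have h := orderOf_dvd_of_pow_eq_one (pow_char (π u))
          rcases (Nat.dvd_prime hp).mp h with h | h
          · exact absurd (orderOf_eq_one_iff.mp h) hπu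
          · exact h
        have := orderOf_dvd_iff_zpow_eq_one.mpr hj1
        rwa [ho] at this
      obtain ⟨i, rfl⟩ := hpj
      exact ⟨i, by push_cast; ring⟩

theorem Good.j2 {p q : ℕ} (hp : p.Prime) (hq : q.Prime) (hp2 : p ≠ 2) (hq2 : q ≠ 2)
    {π : Γ →* Multiplicative (ZMod p)} {α : Γ} (G : Good p q Γ π α) (c : Γ) (hc : c ^ 2 = 1) :
    c = 1 := by
  have hπ : π c = 1 := by
    have h1 : (π c) ^ 2 = 1 := by rw [← map_pow, hc, map_one]
    have h2 : (π c) ^ p = 1 := pow_char _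
    have h3 := orderOf_dvd_of_pow_eq_one h1
    have h4 := orderOf_dvd_of_pow_eq_one h2
    have h5 : Nat.Coprime 2 p := (Nat.coprime_primes Nat.prime_two hp).mpr (Ne.symm hp2)
    have h6 := Nat.dvd_gcd h3 h4
    rw [h5] at h6
    exact orderOf_eq_one_iff.mp (Nat.dvd_one.mp h6)
  obtain ⟨k, hk⟩ := G.j5 c hπ (isOfFinOrder_iff_pow_eq_one.mpr ⟨2, by norm_num, hc⟩)
  have h3 := orderOf_dvd_of_pow_eq_one hc
  have h4 := orderOf_dvd_of_pow_eq_one hk
  have h5 : Nat.Coprime 2 (q ^ k) :=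
    Nat.Coprime.pow_right _ ((Nat.coprime_primes Nat.prime_two hq).mpr (Ne.symm hq2))
  have h6 := Nat.dvd_gcd h3 h4
  rw [h5] at h6
  exact orderOf_eq_one_iff.mp (Nat.dvd_one.mp h6)

theorem step {p q : ℕ} (hp : p.Prime) (hq : q.Prime) (hp2 : p ≠ 2) (hq2 : q ≠ 2)
    (π : Γ →* Multiplicative (ZMod p)) (α : Γ) (G : Good p q Γ π α) (w : Γ)
    (hw : ¬ IsOfFinOrder w) :
    ∃ (u : Γ) (n : ℕ), 0 < n ∧ q ∣ n ∧ w ∈ Subgroup.zpowers u ∧ π (u ^ n) = 1 ∧
      ∃ π' : Γ ⧸ NC u n →* Multiplicative (ZMod p), (∀ x : Γ, π' (x : Γ ⧸ NC u n) = π x) ∧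
        Good p q (Γ ⧸ NC u n) π' (α : Γ ⧸ NC u n) := by
  obtain ⟨ℓ, δ, H, hpr⟩ := G.hyp
  obtain ⟨u, hwu, mal⟩ := exists_root H hpr G.j1 (G.j2 hp hq hp2 hq2) w hw
  have hu : ¬ IsOfFinOrder u := by
    intro h
    apply hw
    obtain ⟨i, hi⟩ := hwu
    have hi' : u ^ i = w := hi
    rw [← hi']
    exact h.zpow
  obtain ⟨K₀, Q⟩ := exists_qgeo H hpr u hu
  obtain ⟨f, K, M⟩ := exists_metProj H u K₀ Q
  obtain ⟨C, θ, P⟩ := exists_projSys H hpr u K₀ Q mal f K M
  obtain ⟨n₁, h₁⟩ := quot_hyp H hpr u f K M C θ P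
  obtain ⟨n₂, h₂⟩ := zpow_mem_NC H u K₀ Q mal f K M C θ P
  obtain ⟨n₃, h₃⟩ := lift_centralizer H u K₀ Q mal f K M C θ P (max (6 * δ + 1) (ℓ α))
  obtain ⟨n₄, h₄⟩ := lift_centralizer_axis H u K₀ Q mal f K M C θ P
  obtain ⟨n₅, h₅⟩ := lift_torsion H u K₀ Q mal f K M C θ P
  -- choice of the exponent
  obtain ⟨n, hB, hn0, hqd, hnp, hπn, k, hnk⟩ :=
    exists_exponent hp hq hp2 hq2 π u (n₁ + n₂ + n₃ + n₄ + n₅)
  have H1 := h₁ n (by omega)
  have H2 := h₂ n (by omega)
  have H3 := h₃ n (by omega)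
  have H4 := h₄ n (by omega)
  have H5 := h₅ n (by omega)
  have hun : u ^ n ∈ NC u n := Subgroup.subset_normalClosure (Set.mem_singleton _)
  have hπN : NC u n ≤ π.ker := by
    apply Subgroup.normalClosure_le_normal
    intro y hy
    rw [Set.mem_singleton_iff] at hy
    subst hy
    exact hπn
  have hker : ∀ g ∈ NC u n, π g = 1 := fun g hg => hπN hg
  have hconj : ∀ x : Γ, IsOfFinOrder x → x ≠ 1 → ∀ b : Γ, b⁻¹ * x * b ∉ Subgroup.zpowers u := by
    intro x hx hx1 b hb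
    obtain ⟨i, hi⟩ := hb
    have hi' : u ^ i = b⁻¹ * x * b := hi
    rw [isOfFinOrder_iff_pow_eq_one] at hx
    obtain ⟨m, hm, hxm⟩ := hx
    have h1 : u ^ (i * m) = 1 := by
      rw [zpow_mul, hi', zpow_natCast]
      have e : (b⁻¹ * x * b) ^ m = b⁻¹ * x ^ m * b := by
        have := conj_pow (i := m) (a := b⁻¹) (b := x)
        simpa using this
      rw [e, hxm]; group
    have h2 : i * m = 0 := by
      by_contra hne
      apply hu
      rw [isOfFinOrder_iff_zpow_eq_one]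
      exact ⟨_, hne, h1⟩
    have h3 : i = 0 := by
      rcases mul_eq_zero.mp h2 with h | h
      · exact h
      · exfalso
        have : m = 0 := by exact_mod_cast h
        omega
    apply hx1
    rw [h3, zpow_zero] at hi'
    have : x = b * (b⁻¹ * x * b) * b⁻¹ := by group
    rw [this, ← hi']
    group
  -- lifting of torsion elements of small exponent
  have key : ∀ (x : Γ) (m : ℕ), 1 ≤ m → x ^ m ∈ NC u n →
      (∀ g ∈ NC u n, ∀ b : Γ, ℓ x ≤ ℓ (b⁻¹ * (g * x) * b)) → x ≠ 1 →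
      (IsOfFinOrder x ∧ ℓ x ≤ 6 * δ + 1) ∨ ∃ (b : Γ) (j : ℤ), b⁻¹ * x * b = u ^ j := by
    intro x m hm hxm hmin hx1
    rcases H5 x m hm hxm hmin with h | ⟨b, hb⟩
    · left
      have ht : IsOfFinOrder x := by
        rw [isOfFinOrder_iff_pow_eq_one]
        exact ⟨m, hm, h⟩
      refine ⟨ht, conjmin_torsion H x (fun b => ?_) ht⟩
      have := hmin 1 (Subgroup.one_mem _) b
      rwa [one_mul] at this
    · right
      obtain ⟨j, hj⟩ := hb
      exact ⟨b, j, hj.symm⟩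
  have hmk : ∀ x : Γ, (QuotientGroup.mk x : Γ ⧸ NC u n) = 1 ↔ x ∈ NC u n :=
    fun x => QuotientGroup.eq_one_iff x
  refine ⟨u, n, hn0, hqd, hwu, hπn, QuotientGroup.lift (NC u n) π hπN, fun x => rfl, ?_⟩
  have hπ' : ∀ x : Γ, QuotientGroup.lift (NC u n) π hπN (QuotientGroup.mk x) = π x := fun x => rfl
  have hα1 : α ≠ 1 := by
    intro h
    apply G.a1
    rw [h, map_one]
  have hα : IsOfFinOrder α := by
    rw [isOfFinOrder_iff_pow_eq_one]
    exact ⟨p, hp.pos, G.a3⟩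
  constructor
  · exact H1
  · -- j1
    intro c h hc ht hch
    obtain ⟨x, b, hxb, hmin⟩ := exists_min_lift ℓ (NC u n) c
    obtain ⟨h', hh'⟩ := QuotientGroup.mk_surjective ((QuotientGroup.mk b)⁻¹ * h * QuotientGroup.mk b)
    apply torsion_of_conj (b := (QuotientGroup.mk b : Γ ⧸ NC u n))
    rw [← hh']
    have hx1 : x ∉ NC u n := by
      intro h1
      apply hc
      rw [← hmk, hxb] at h1
      have : c = QuotientGroup.mk b * ((QuotientGroup.mk b)⁻¹ * c * QuotientGroup.mk b) *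
        (QuotientGroup.mk b)⁻¹ := by group
      rw [this, h1]; group
    have hcomm : (QuotientGroup.mk x : Γ ⧸ NC u n) * QuotientGroup.mk h' =
        QuotientGroup.mk h' * QuotientGroup.mk x := by
      rw [hh', hxb]
      have e1 : (QuotientGroup.mk b : Γ ⧸ NC u n)⁻¹ * c * QuotientGroup.mk b *
        ((QuotientGroup.mk b)⁻¹ * h * QuotientGroup.mk b) =
        (QuotientGroup.mk b)⁻¹ * (c * h) * QuotientGroup.mk b := by group
      have e2 : (QuotientGroup.mk b : Γ ⧸ NC u n)⁻¹ * h * QuotientGroup.mk b *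
        ((QuotientGroup.mk b)⁻¹ * c * QuotientGroup.mk b) =
        (QuotientGroup.mk b)⁻¹ * (h * c) * QuotientGroup.mk b := by group
      rw [e1, e2, hch]
    obtain ⟨m, hm, hxm⟩ : ∃ m : ℕ, 0 < m ∧ x ^ m ∈ NC u n := by
      rw [isOfFinOrder_iff_pow_eq_one] at ht
      obtain ⟨m, hm, h1⟩ := ht
      refine ⟨m, hm, ?_⟩
      rw [← hmk, QuotientGroup.mk_pow, hxb]
      have e : ((QuotientGroup.mk b : Γ ⧸ NC u n)⁻¹ * c * QuotientGroup.mk b) ^ m =
        (QuotientGroup.mk b)⁻¹ * c ^ m * QuotientGroup.mk b := by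
        have := conj_pow (i := m) (a := (QuotientGroup.mk b : Γ ⧸ NC u n)⁻¹) (b := c)
        simpa using this
      rw [e, h1]; group
    rcases key x m hm hxm hmin (fun h1 => hx1 (h1 ▸ Subgroup.one_mem _)) with ⟨hxt, hxl⟩ | ⟨b', j, hj⟩
    · -- torsion in Γ
      have hxne : x ≠ 1 := fun h1 => hx1 (h1 ▸ Subgroup.one_mem _)
      have hN : h' * x * h'⁻¹ * x⁻¹ ∈ NC u n := by
        rw [← hmk, QuotientGroup.mk_mul, QuotientGroup.mk_mul, QuotientGroup.mk_mul, ← hcomm,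
          QuotientGroup.mk_inv, QuotientGroup.mk_inv]
        group
      obtain ⟨g, hg, hgc⟩ := H3 x (le_trans hxl (le_max_left _ _)) (hconj x hxt hxne) h' hN
      have hgt := G.j1 x (g * h') hxne hxt hgc.symm
      have e : (QuotientGroup.mk h' : Γ ⧸ NC u n) = QuotientGroup.mk (g * h') := by
        rw [QuotientGroup.mk_mul, (hmk g).mpr hg, one_mul]
      rw [e, isOfFinOrder_iff_pow_eq_one]
      rw [isOfFinOrder_iff_pow_eq_one] at hgt
      obtain ⟨m', hm', h2⟩ := hgt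
      exact ⟨m', hm', by rw [← QuotientGroup.mk_pow, h2]; rfl⟩
    · -- conjugate into the axis group
      have hjN : u ^ j ∉ NC u n := by
        intro h1
        apply hx1
        rw [← hj] at h1
        have := (Subgroup.normalClosure_normal (s := {u ^ n})).conj_mem _ h1 b'
        have e : b' * (b'⁻¹ * x * b') * b'⁻¹ = x := by group
        rwa [e] at this
      have hnj : ¬ (n : ℤ) ∣ j := by
        rintro ⟨i, rfl⟩
        apply hjN
        rw [zpow_mul, zpow_natCast]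
        exact Subgroup.zpow_mem _ hun _
      obtain ⟨a, a', j', hj', hj5, hj3⟩ := exists_prime_quot n hn0 hnp j hnj
      set y := b'⁻¹ * h' * b' with hy
      have hcomm2 : (QuotientGroup.mk (u ^ j) : Γ ⧸ NC u n) * QuotientGroup.mk y =
          QuotientGroup.mk y * QuotientGroup.mk (u ^ j) := by
        rw [← hj, hy]
        simp only [QuotientGroup.mk_mul, QuotientGroup.mk_inv]
        have e1 : (QuotientGroup.mk b' : Γ ⧸ NC u n)⁻¹ * QuotientGroup.mk x * QuotientGroup.mk b' *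
          ((QuotientGroup.mk b')⁻¹ * QuotientGroup.mk h' * QuotientGroup.mk b') =
          (QuotientGroup.mk b')⁻¹ * (QuotientGroup.mk x * QuotientGroup.mk h') *
            QuotientGroup.mk b' := by group
        have e2 : (QuotientGroup.mk b' : Γ ⧸ NC u n)⁻¹ * QuotientGroup.mk h' * QuotientGroup.mk b' *
          ((QuotientGroup.mk b')⁻¹ * QuotientGroup.mk x * QuotientGroup.mk b') =
          (QuotientGroup.mk b')⁻¹ * (QuotientGroup.mk h' * QuotientGroup.mk x) *
            QuotientGroup.mk b' := by group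
        rw [e1, e2, hcomm]
      have hj'q : (QuotientGroup.mk (u ^ j') : Γ ⧸ NC u n) = (QuotientGroup.mk (u ^ j)) ^ a := by
        rw [hj', zpow_add, QuotientGroup.mk_mul, mul_comm a j, mul_comm a' (n : ℤ), zpow_mul,
          zpow_mul, zpow_natCast, (hmk ((u ^ n) ^ a')).mpr (Subgroup.zpow_mem _ hun _), mul_one,
          QuotientGroup.mk_zpow]
      have hcomm3 : (QuotientGroup.mk (u ^ j') : Γ ⧸ NC u n) * QuotientGroup.mk y =
          QuotientGroup.mk y * QuotientGroup.mk (u ^ j') := by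
        rw [hj'q]
        exact ((show Commute (QuotientGroup.mk (u ^ j) : Γ ⧸ NC u n) (QuotientGroup.mk y) from
          hcomm2).zpow_left a)
      have hN : y * u ^ j' * y⁻¹ * (u ^ j')⁻¹ ∈ NC u n := by
        rw [← hmk, QuotientGroup.mk_mul, QuotientGroup.mk_mul, QuotientGroup.mk_mul, ← hcomm3,
          QuotientGroup.mk_inv, QuotientGroup.mk_inv]
        group
      obtain ⟨g, hg, i, hgi⟩ := H4 j' hj5 hj3 y hN
      apply torsion_of_conj (b := (QuotientGroup.mk b' : Γ ⧸ NC u n))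
      have e : (QuotientGroup.mk b' : Γ ⧸ NC u n)⁻¹ * QuotientGroup.mk h' * QuotientGroup.mk b' =
          QuotientGroup.mk (u ^ i) := by
        rw [← QuotientGroup.mk_inv, ← QuotientGroup.mk_mul, ← QuotientGroup.mk_mul, ← hy, hgi,
          QuotientGroup.mk_mul, (hmk g).mpr hg, one_mul]
      rw [e, isOfFinOrder_iff_pow_eq_one]
      refine ⟨n, hn0, ?_⟩
      rw [← QuotientGroup.mk_pow, hmk, ← zpow_natCast, ← zpow_mul, mul_comm, zpow_mul, zpow_natCast]
      exact Subgroup.zpow_mem _ hun _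
  · -- j5
    intro c hπc ht
    obtain ⟨x, b, hxb, hmin⟩ := exists_min_lift ℓ (NC u n) c
    have hcx : c = QuotientGroup.mk (b * x * b⁻¹) := by
      rw [QuotientGroup.mk_mul, QuotientGroup.mk_mul, QuotientGroup.mk_inv, hxb]
      group
    have hπx : π x = 1 := by
      rw [← hπ' x, hxb, map_mul, map_mul, hπc, map_inv, mul_one, inv_mul_cancel]
    suffices h : ∃ k : ℕ, x ^ (q ^ k) ∈ NC u n by
      obtain ⟨k, hk⟩ := h
      refine ⟨k, ?_⟩
      rw [hcx, ← QuotientGroup.mk_pow, hmk, conj_pow]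
      exact (Subgroup.normalClosure_normal (s := {u ^ n})).conj_mem _ hk b
    by_cases hx1 : x = 1
    · exact ⟨0, by rw [hx1, one_pow]; exact Subgroup.one_mem _⟩
    obtain ⟨m, hm, hxm⟩ : ∃ m : ℕ, 0 < m ∧ x ^ m ∈ NC u n := by
      rw [isOfFinOrder_iff_pow_eq_one] at ht
      obtain ⟨m, hm, h1⟩ := ht
      refine ⟨m, hm, ?_⟩
      rw [← hmk, QuotientGroup.mk_pow, hxb]
      have e : ((QuotientGroup.mk b : Γ ⧸ NC u n)⁻¹ * c * QuotientGroup.mk b) ^ m =
        (QuotientGroup.mk b)⁻¹ * c ^ m * QuotientGroup.mk b := by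
        have := conj_pow (i := m) (a := (QuotientGroup.mk b : Γ ⧸ NC u n)⁻¹) (b := c)
        simpa using this
      rw [e, h1]; group
    rcases key x m hm hxm hmin hx1 with ⟨hxt, -⟩ | ⟨b', j, hj⟩
    · obtain ⟨k', hk'⟩ := G.j5 x hπx hxt
      exact ⟨k', by rw [hk']; exact Subgroup.one_mem _⟩
    · have hπj : π (u ^ j) = 1 := by
        rw [← hj, map_mul, map_mul, hπx, map_inv, mul_one, inv_mul_cancel]
      obtain ⟨i, hi⟩ := hnk j hπj
      refine ⟨k, ?_⟩
      have hx : x = b' * u ^ j * b'⁻¹ := by rw [← hj]; group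
      have e2 : (u ^ j) ^ (q ^ k) = (u ^ n) ^ i := by
        rw [← zpow_natCast, ← zpow_mul, ← zpow_natCast u n, ← zpow_mul, ← hi]
        congr 1
        push_cast
        ring
      rw [hx, conj_pow, e2]
      exact (Subgroup.normalClosure_normal (s := {u ^ n})).conj_mem _
        (Subgroup.zpow_mem _ hun _) b'
  · -- j4
    intro h hπh hcomm
    obtain ⟨y, rfl⟩ := QuotientGroup.mk_surjective h
    have hN : y * α * y⁻¹ * α⁻¹ ∈ NC u n := by
      rw [← hmk, QuotientGroup.mk_mul, QuotientGroup.mk_mul, QuotientGroup.mk_mul,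
        QuotientGroup.mk_inv, QuotientGroup.mk_inv]
      have hcomm' : (QuotientGroup.mk y : Γ ⧸ NC u n) * QuotientGroup.mk α =
        QuotientGroup.mk α * QuotientGroup.mk y := hcomm
      rw [hcomm']; group
    obtain ⟨g, hg, hgc⟩ := H3 α (le_max_right _ _) (hconj α hα hα1) y hN
    have h1 := G.j4 (g * y) (by rw [map_mul, hker g hg, one_mul]; exact hπh) hgc
    rw [hmk]
    have : y = g⁻¹ * (g * y) := by group
    rw [this, h1, mul_one]
    exact Subgroup.inv_mem _ hg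
  · rw [hπ']
    exact G.a1
  · show (QuotientGroup.mk α : Γ ⧸ NC u n) ^ p = 1
    rw [← QuotientGroup.mk_pow, G.a3]
    rfl

end Pool.Agent.Lib.MP_06935a_al.Ins
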